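import Mathlib

set_option autoImplicit false

/-! # Many coprime pairs, many primitive vectors of given height -/

namespace Pool.Agent.U580.RG

open Finset

/-- the sum of the squares of the reciprocals of the odd numbers -/
theorem sum_odd (N : ℕ) : (∑ j ∈ Finset.Icc 1 (N + 1), 1 / (2 * (j : ℝ) + 1) ^ 2 : ℝ) ≤
    17 / 72 - 1 / (4 * ((N : ℝ) + 2)) := by
  induction N with
  | zero => norm_num
  | succ N ih =>
    rw [Finset.sum_Icc_succ_top (by omega)]
    push_cast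
    have hN : (0 : ℝ) ≤ N := Nat.cast_nonneg N
    have h1 : 1 / (2 * ((N : ℝ) + 1 + 1) + 1) ^ 2 ≤ 1 / (4 * ((N : ℝ) + 2)) - 1 / (4 * ((N : ℝ) + 1 + 2)) := by
      have h2 : 1 / (4 * ((N : ℝ) + 2)) - 1 / (4 * ((N : ℝ) + 1 + 2)) =
          1 / (4 * (((N : ℝ) + 2) * (N + 3))) := by
        field_simp
        ring
      rw [h2]
      refine one_div_le_one_div_of_le (by positivity) ?_
      nlinarith
    linarith

/-- the pairs in `[1, 2 T]²` which are not coprime -/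
theorem card_noncop (L : ℕ) :
    ((((Finset.Icc 1 L) ×ˢ (Finset.Icc 1 L)).filter (fun z : ℕ × ℕ => ¬ Nat.Coprime z.1 z.2)).card : ℝ) ≤
      35 / 72 * (L : ℝ) ^ 2 := by
  classical
  have hsub : ((Finset.Icc 1 L) ×ˢ (Finset.Icc 1 L)).filter (fun z : ℕ × ℕ => ¬ Nat.Coprime z.1 z.2) ⊆
      (insert 2 ((Finset.Icc 1 (L + 1)).image (fun j => 2 * j + 1))).biUnion fun p =>
        ((Finset.Icc 1 L).filter (p ∣ ·)) ×ˢ ((Finset.Icc 1 L).filter (p ∣ ·)) := by
    intro z hz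
    obtain ⟨hz1, hz2⟩ := Finset.mem_filter.1 hz
    obtain ⟨ha, hb⟩ := Finset.mem_product.1 hz1
    obtain ⟨p, hp, hpa, hpb⟩ := Nat.Prime.not_coprime_iff_dvd.1 hz2
    rw [Finset.mem_biUnion]
    refine ⟨p, ?_, Finset.mem_product.2 ⟨Finset.mem_filter.2 ⟨ha, hpa⟩, Finset.mem_filter.2 ⟨hb, hpb⟩⟩⟩
    rw [Finset.mem_insert, Finset.mem_image]
    rcases hp.eq_two_or_odd' with h | h
    · exact Or.inl h
    · right
      obtain ⟨k, hk⟩ := h
      refine ⟨k, ?_, hk.symm⟩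
      rw [Finset.mem_Icc]
      have h1 := hp.two_le
      have h2 : p ≤ z.1 := Nat.le_of_dvd (by have := (Finset.mem_Icc.1 ha).1; omega) hpa
      have h3 := (Finset.mem_Icc.1 ha).2
      omega
  have hone : ∀ p : ℕ, 1 ≤ p → (((((Finset.Icc 1 L).filter (p ∣ ·)) ×ˢ
      ((Finset.Icc 1 L).filter (p ∣ ·))).card : ℕ) : ℝ) ≤ (L : ℝ) ^ 2 * (1 / (p : ℝ) ^ 2) := by
    intro p hp
    have hpr : (0 : ℝ) < p := by exact_mod_cast hp
    have h1 : ((Finset.Icc 1 L).filter (p ∣ ·)).card = L / p := by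
      have := Nat.Ioc_filter_dvd_card_eq_div L p
      have h2 : Finset.Icc 1 L = Finset.Ioc 0 L := by
        ext a
        simp only [Finset.mem_Icc, Finset.mem_Ioc]
        omega
      rw [h2]
      exact this
    rw [Finset.card_product, h1]
    push_cast
    have h2 : ((L / p : ℕ) : ℝ) ≤ (L : ℝ) / p := Nat.cast_div_le
    have h3 : (0 : ℝ) ≤ ((L / p : ℕ) : ℝ) := Nat.cast_nonneg _
    calc ((L / p : ℕ) : ℝ) * ((L / p : ℕ) : ℝ) ≤ ((L : ℝ) / p) * ((L : ℝ) / p) :=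
          mul_le_mul h2 h2 h3 (by positivity)
      _ = (L : ℝ) ^ 2 * (1 / (p : ℝ) ^ 2) := by
          field_simp
  have h1 := (Finset.card_le_card hsub).trans Finset.card_biUnion_le
  have h2 : ((((Finset.Icc 1 L) ×ˢ (Finset.Icc 1 L)).filter
      (fun z : ℕ × ℕ => ¬ Nat.Coprime z.1 z.2)).card : ℝ) ≤
      ∑ p ∈ (insert 2 ((Finset.Icc 1 (L + 1)).image (fun j => 2 * j + 1)) : Finset ℕ),
        (L : ℝ) ^ 2 * (1 / ((p : ℕ) : ℝ) ^ 2) := by
    refine (Nat.cast_le.2 h1).trans ?_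
    rw [Nat.cast_sum]
    refine Finset.sum_le_sum fun p hp => hone p ?_
    rw [Finset.mem_insert, Finset.mem_image] at hp
    rcases hp with rfl | ⟨j, -, rfl⟩ <;> omega
  refine h2.trans ?_
  rw [Finset.sum_insert (by
    rw [Finset.mem_image]
    rintro ⟨j, -, hj⟩
    omega), Finset.sum_image (by intro a _ b _ h; simpa using h)]
  rw [← Finset.mul_sum]
  have h3 := sum_odd L
  have h4 : (0 : ℝ) < 1 / (4 * ((L : ℝ) + 2)) := by positivity
  have h5 : (∑ j ∈ Finset.Icc 1 (L + 1), 1 / (((2 * j + 1 : ℕ) : ℝ)) ^ 2 : ℝ) ≤ 17 / 72 := by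
    push_cast
    linarith
  have h6 : (0 : ℝ) ≤ (L : ℝ) ^ 2 := by positivity
  push_cast at h5 ⊢
  nlinarith

/-- the coprime pairs in `[1, 2 T]²` with `max > T` -/
def CP (T : ℕ) : Finset (ℕ × ℕ) :=
  ((Finset.Icc 1 (2 * T)) ×ˢ (Finset.Icc 1 (2 * T))).filter
    (fun z : ℕ × ℕ => Nat.Coprime z.1 z.2 ∧ T < max z.1 z.2)

theorem card_CP (T : ℕ) : T ^ 2 ≤ (CP T).card := by
  classical
  have h0 : ((Finset.Icc 1 (2 * T)) ×ˢ (Finset.Icc 1 (2 * T))) ⊆
      CP T ∪ ((((Finset.Icc 1 (2 * T)) ×ˢ (Finset.Icc 1 (2 * T))).filter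
        (fun z : ℕ × ℕ => ¬ Nat.Coprime z.1 z.2)) ∪ ((Finset.Icc 1 T) ×ˢ (Finset.Icc 1 T))) := by
    intro z hz
    have hz' := hz
    rw [Finset.mem_product, Finset.mem_Icc, Finset.mem_Icc] at hz
    rw [Finset.mem_union, Finset.mem_union]
    by_cases h1 : Nat.Coprime z.1 z.2
    · by_cases h2 : T < max z.1 z.2
      · left
        exact Finset.mem_filter.2 ⟨hz', h1, h2⟩
      · right; right
        rw [Finset.mem_product, Finset.mem_Icc, Finset.mem_Icc]
        have := le_max_left z.1 z.2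
        have := le_max_right z.1 z.2
        omega
    · right; left
      exact Finset.mem_filter.2 ⟨hz', h1⟩
  have h1 := (Finset.card_le_card h0).trans (Finset.card_union_le _ _)
  have h2 := Finset.card_union_le (((Finset.Icc 1 (2 * T)) ×ˢ (Finset.Icc 1 (2 * T))).filter
        (fun z : ℕ × ℕ => ¬ Nat.Coprime z.1 z.2)) ((Finset.Icc 1 T) ×ˢ (Finset.Icc 1 T))
  have h3 : ((Finset.Icc 1 T) ×ˢ (Finset.Icc 1 T)).card = T ^ 2 := by
    rw [Finset.card_product, Nat.card_Icc, Nat.add_sub_cancel]; ring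
  have h4 : ((Finset.Icc 1 (2 * T)) ×ˢ (Finset.Icc 1 (2 * T))).card = 4 * T ^ 2 := by
    rw [Finset.card_product, Nat.card_Icc, Nat.add_sub_cancel]; ring
  have h5 := card_noncop (2 * T)
  push_cast at h5
  rw [h4] at h1
  rw [h3] at h2
  have h6 : (((4 * T ^ 2 : ℕ)) : ℝ) ≤ (((CP T).card + ((((Finset.Icc 1 (2 * T)) ×ˢ
    (Finset.Icc 1 (2 * T))).filter (fun z : ℕ × ℕ => ¬ Nat.Coprime z.1 z.2)).card + T ^ 2) : ℕ) : ℝ) :=
    Nat.cast_le.2 (h1.trans (Nat.add_le_add_left h2 _))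
  push_cast at h6
  have h7 : ((T : ℝ)) ^ 2 ≤ (CP T).card := by nlinarith [sq_nonneg (T : ℝ)]
  exact_mod_cast h7

/-- primitive vectors with positive coordinates, pairwise not proportional, of height in `(T, 2 T]` -/
noncomputable def Fam (m T : ℕ) : Finset (Fin (m + 2) → ℤ) := by
  classical
  exact ((CP T) ×ˢ (Fintype.piFinset (fun _ : Fin m => Finset.Icc 1 (2 * T)))).image
    (fun z => Fin.cons (z.1.1 : ℤ) (Fin.cons (z.1.2 : ℤ) (fun i => ((z.2 i : ℕ) : ℤ))))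

theorem card_Fam (m T : ℕ) : T ^ (m + 2) ≤ (Fam m T).card ∧ (Fam m T).card ≤ (2 * T) ^ (m + 2) := by
  classical
  have hinj : Function.Injective (fun z : (ℕ × ℕ) × (Fin m → ℕ) =>
      (Fin.cons (z.1.1 : ℤ) (Fin.cons (z.1.2 : ℤ) (fun i => ((z.2 i : ℕ) : ℤ))) : Fin (m + 2) → ℤ)) := by
    rintro ⟨⟨a, b⟩, f⟩ ⟨⟨a', b'⟩, f'⟩ h
    have h := Fin.cons_injective2 h
    obtain ⟨h1, h2⟩ := h
    have h3 := Fin.cons_injective2 h2
    obtain ⟨h3, h4⟩ := h3
    have e1 : a = a' := by exact_mod_cast h1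
    have e2 : b = b' := by exact_mod_cast h3
    have e3 : f = f' := by
      funext i
      have := congrFun h4 i
      exact_mod_cast this
    rw [e1, e2, e3]
  have hc : (Fam m T).card = (CP T).card * (2 * T) ^ m := by
    unfold Fam
    rw [Finset.card_image_of_injective _ hinj, Finset.card_product, Fintype.card_piFinset,
      Finset.prod_const, Finset.card_univ, Fintype.card_fin, Nat.card_Icc, Nat.add_sub_cancel]
  rw [hc]
  constructor
  · calc T ^ (m + 2) = T ^ 2 * T ^ m := by ring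
      _ ≤ (CP T).card * (2 * T) ^ m :=
          Nat.mul_le_mul (card_CP T) (Nat.pow_le_pow_left (by omega) _)
  · have h1 : (CP T).card ≤ (2 * T) ^ 2 := by
      unfold CP
      refine (Finset.card_filter_le _ _).trans ?_
      rw [Finset.card_product, Nat.card_Icc, Nat.add_sub_cancel]
      exact le_of_eq (by ring)
    calc (CP T).card * (2 * T) ^ m ≤ (2 * T) ^ 2 * (2 * T) ^ m := Nat.mul_le_mul_right _ h1
      _ = _ := by ring

theorem mem_Fam {m T : ℕ} {x : Fin (m + 2) → ℤ} (h : x ∈ Fam m T) :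
    (∀ i, 1 ≤ x i ∧ x i ≤ 2 * T) ∧ IsCoprime (x 0) (x 1) ∧ (T : ℤ) < max (x 0) (x 1) := by
  classical
  unfold Fam at h
  rw [Finset.mem_image] at h
  obtain ⟨⟨⟨a, b⟩, f⟩, hz, rfl⟩ := h
  obtain ⟨h1, h2⟩ := Finset.mem_product.1 hz
  unfold CP at h1
  obtain ⟨h3, h4, h5⟩ := Finset.mem_filter.1 h1
  obtain ⟨h6, h7⟩ := Finset.mem_product.1 h3
  simp only [Finset.mem_Icc] at h6 h7
  have h0 : (1 : Fin (m + 2)) = Fin.succ 0 := rfl
  refine ⟨?_, ?_, ?_⟩
  · intro i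
    refine Fin.cases ?_ (fun j => ?_) i
    · simp only [Fin.cons_zero]
      omega
    · refine Fin.cases ?_ (fun k => ?_) j
      · simp only [Fin.cons_succ, Fin.cons_zero]
        omega
      · simp only [Fin.cons_succ]
        have := Finset.mem_Icc.1 (Fintype.mem_piFinset.1 h2 k)
        dsimp only at this ⊢
        omega
  · rw [h0, Fin.cons_zero, Fin.cons_succ, Fin.cons_zero]
    exact Nat.isCoprime_iff_coprime.2 h4
  · rw [h0, Fin.cons_zero, Fin.cons_succ, Fin.cons_zero]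
    have : (T : ℤ) < ((max a b : ℕ) : ℤ) := by exact_mod_cast h5
    rwa [Nat.cast_max] at this

/-- two of the vectors are not proportional -/
theorem Fam_indep {m T : ℕ} {x y : Fin (m + 2) → ℤ} (hx : x ∈ Fam m T) (hy : y ∈ Fam m T)
    (hne : x ≠ y) : ∃ j, x 0 * y j ≠ x j * y 0 := by
  by_contra hno
  push Not at hno
  obtain ⟨hx1, hx2, -⟩ := mem_Fam hx
  obtain ⟨hy1, hy2, -⟩ := mem_Fam hy
  apply hne
  have h0 := hno 1
  have hd1 : x 0 ∣ y 0 := by
    refine hx2.dvd_of_dvd_mul_left ?_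
    exact ⟨y 1, h0.symm⟩
  have hd2 : y 0 ∣ x 0 := by
    refine hy2.dvd_of_dvd_mul_right ?_
    exact ⟨x 1, by rw [h0]; ring⟩
  have he : x 0 = y 0 := by
    have p1 := (hx1 0).1
    have p2 := (hy1 0).1
    exact Int.dvd_antisymm (by omega) (by omega) hd1 hd2
  funext j
  have h1 := hno j
  rw [he, mul_comm] at h1
  have p2 : y 0 ≠ 0 := by have := (hy1 0).1; omega
  exact (mul_right_cancel₀ p2 h1).symm

end Pool.Agent.U580.RG
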