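import Mathlib
import Pool.Agent.R870.RC.Low

set_option autoImplicit false

/-! # Random complete intersections: points of height between `T` and `B`, upper bound -/

namespace Pool.Agent.U580.RG

open MvPolynomial Finset Pool.Agent.R870.RC

variable {n : ℕ}

/-- the coordinates are coprime -/
def Prm {n : ℕ} (x : Fin (n + 1) → ℤ) : Prop := ∀ p : ℕ, p.Prime → ∃ j, ¬ (p : ℤ) ∣ x j

/-- the systems of forms with a common zero of height between `T` and `B` -/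
def WP (n : ℕ) {s : ℕ} (d : Fin s → ℕ) (H T B : ℕ) :
    Set (Fin s → MvPolynomial (Fin (n + 1)) ℤ) :=
  {F | F ∈ Systems n d H ∧ ∃ x : Fin (n + 1) → ℤ, Prm x ∧
    T ≤ (Finset.univ.sup fun j => (x j).natAbs) ∧ (Finset.univ.sup fun j => (x j).natAbs) ≤ B ∧
    ∀ i, eval x (F i) = 0}

theorem sum_sq (T : ℕ) (hT : 1 ≤ T) (B : ℕ) :
    (∑ b ∈ Finset.Icc T B, 1 / (b : ℝ) ^ 2 : ℝ) ≤ 2 / (T : ℝ) := by
  have hTr : (1 : ℝ) ≤ T := by exact_mod_cast hT
  have key : ∀ m : ℕ, (∑ b ∈ Finset.Icc T (T + m), 1 / (b : ℝ) ^ 2 : ℝ) ≤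
      2 / (T : ℝ) - 1 / ((T : ℝ) + m) := by
    intro m
    induction m with
    | zero =>
      simp only [add_zero, Finset.Icc_self, Finset.sum_singleton, Nat.cast_zero]
      have h1 : 1 / (T : ℝ) ^ 2 ≤ 1 / (T : ℝ) :=
        one_div_le_one_div_of_le (by positivity) (by nlinarith)
      have h2 : 2 / (T : ℝ) - 1 / T = 1 / T := by ring
      linarith
    | succ m ih =>
      rw [← Nat.add_assoc, Finset.sum_Icc_succ_top (by omega)]
      push_cast
      have hm : (0 : ℝ) ≤ m := Nat.cast_nonneg m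
      have h3 : 1 / ((T : ℝ) + m) - 1 / ((T : ℝ) + (m + 1)) =
          1 / (((T : ℝ) + m) * ((T : ℝ) + (m + 1))) := by
        field_simp
        ring
      have h4 : 1 / ((T : ℝ) + m + 1) ^ 2 ≤ 1 / (((T : ℝ) + m) * ((T : ℝ) + (m + 1))) := by
        refine one_div_le_one_div_of_le (by positivity) ?_
        nlinarith
      linarith
  rcases lt_or_ge B T with h | h
  · rw [Finset.Icc_eq_empty (by omega), Finset.sum_empty]
    positivity
  · obtain ⟨m, rfl⟩ := Nat.exists_eq_add_of_le h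
    have := key m
    have h1 : (0 : ℝ) ≤ 1 / ((T : ℝ) + m) := by positivity
    linarith

/-- the sum over the points -/
theorem sum_tail (n D H T B : ℕ) (hD : n + 2 ≤ D) (hH : 1 ≤ H) (hT : 1 ≤ T) :
    ∑ b ∈ Finset.Icc T B, (2 * (3 * b) ^ n : ℝ) / (min b H : ℕ) ^ D ≤
      4 * 3 ^ n * (1 / (T : ℝ) ^ (D - (n + 1)) + (B : ℝ) ^ (n + 1) / (H : ℝ) ^ D) := by
  have hHr : (1 : ℝ) ≤ H := by exact_mod_cast hH
  have hTr : (1 : ℝ) ≤ T := by exact_mod_cast hT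
  obtain ⟨e, rfl⟩ := Nat.exists_eq_add_of_le hD
  have hsub : n + 2 + e - (n + 1) = e + 1 := by omega
  rw [hsub]
  have key : ∀ b ∈ Finset.Icc T B, (2 * (3 * b) ^ n : ℝ) / (min b H : ℕ) ^ (n + 2 + e) ≤
      2 * 3 ^ n * (1 / (T : ℝ) ^ e * (1 / (b : ℝ) ^ 2) + (B : ℝ) ^ n / (H : ℝ) ^ (n + 2 + e)) := by
    intro b hb
    obtain ⟨hb1, hb2⟩ := Finset.mem_Icc.1 hb
    have hbT : (T : ℝ) ≤ b := by exact_mod_cast hb1
    have hbr : (1 : ℝ) ≤ b := hTr.trans hbT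
    have hbB : (b : ℝ) ≤ B := by exact_mod_cast hb2
    rcases le_total b H with h | h
    · rw [min_eq_left h]
      have h1 : (2 * (3 * (b : ℝ)) ^ n) / (b : ℝ) ^ (n + 2 + e) =
          2 * 3 ^ n * (1 / (b : ℝ) ^ e * (1 / (b : ℝ) ^ 2)) := by
        rw [mul_pow, pow_add, pow_add]
        field_simp
      have h2 : 1 / (b : ℝ) ^ e ≤ 1 / (T : ℝ) ^ e :=
        one_div_le_one_div_of_le (by positivity) (pow_le_pow_left₀ (by positivity) hbT e)
      have h3 : 1 / (b : ℝ) ^ e * (1 / (b : ℝ) ^ 2) ≤ 1 / (T : ℝ) ^ e * (1 / (b : ℝ) ^ 2) :=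
        mul_le_mul_of_nonneg_right h2 (by positivity)
      have h4 : 0 ≤ (B : ℝ) ^ n / (H : ℝ) ^ (n + 2 + e) := by positivity
      rw [h1]
      exact mul_le_mul_of_nonneg_left (by linarith) (by positivity)
    · rw [min_eq_right h]
      have h1 : (2 * (3 * (b : ℝ)) ^ n) / (H : ℝ) ^ (n + 2 + e) ≤
          2 * 3 ^ n * ((B : ℝ) ^ n / (H : ℝ) ^ (n + 2 + e)) := by
        rw [mul_pow, ← mul_div_assoc]
        refine div_le_div_of_nonneg_right ?_ (by positivity)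
        have h2 : (b : ℝ) ^ n ≤ (B : ℝ) ^ n := pow_le_pow_left₀ (by positivity) hbB n
        nlinarith [pow_pos (show (0 : ℝ) < 3 by norm_num) n]
      have h4 : 0 ≤ 1 / (T : ℝ) ^ e * (1 / (b : ℝ) ^ 2) := by positivity
      refine h1.trans (mul_le_mul_of_nonneg_left (by linarith) (by positivity))
  refine (Finset.sum_le_sum key).trans ?_
  rw [← Finset.mul_sum, Finset.sum_add_distrib, Finset.sum_const, Nat.card_Icc, nsmul_eq_mul,
    ← Finset.mul_sum]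
  have h5 := sum_sq T hT B
  have h6 : 1 / (T : ℝ) ^ e * ∑ b ∈ Finset.Icc T B, 1 / (b : ℝ) ^ 2 ≤ 2 * (1 / (T : ℝ) ^ (e + 1)) := by
    calc 1 / (T : ℝ) ^ e * ∑ b ∈ Finset.Icc T B, 1 / (b : ℝ) ^ 2 ≤ 1 / (T : ℝ) ^ e * (2 / T) :=
          mul_le_mul_of_nonneg_left h5 (by positivity)
      _ = 2 * (1 / (T : ℝ) ^ (e + 1)) := by
          rw [pow_succ]
          field_simp
  have h7 : ((B + 1 - T : ℕ) : ℝ) ≤ B := by
    have : B + 1 - T ≤ B := by omega
    exact_mod_cast this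
  have h8 : ((B + 1 - T : ℕ) : ℝ) * ((B : ℝ) ^ n / (H : ℝ) ^ (n + 2 + e)) ≤
      (B : ℝ) ^ (n + 1) / (H : ℝ) ^ (n + 2 + e) := by
    calc ((B + 1 - T : ℕ) : ℝ) * ((B : ℝ) ^ n / (H : ℝ) ^ (n + 2 + e)) ≤
        B * ((B : ℝ) ^ n / (H : ℝ) ^ (n + 2 + e)) :=
          mul_le_mul_of_nonneg_right h7 (by positivity)
      _ = _ := by rw [pow_succ]; ring
  have h9 : 0 ≤ (B : ℝ) ^ (n + 1) / (H : ℝ) ^ (n + 2 + e) := by positivity
  have h10 : (0 : ℝ) < 2 * 3 ^ n := by positivity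
  nlinarith

/-- the systems vanishing at `x` -/
noncomputable def AA (n : ℕ) {s : ℕ} (d : Fin s → ℕ) (H : ℕ) (x : Fin (n + 1) → ℤ) :
    Finset (Fin s → MvPolynomial (Fin (n + 1)) ℤ) := by
  classical
  exact Fintype.piFinset fun i => (FF n (d i) H).filter (fun F => eval x F = 0)

theorem card_AA {s : ℕ} (d : Fin s → ℕ) (H : ℕ) (hH : 1 ≤ H) (x : Fin (n + 1) → ℤ)
    (i0 : Fin (n + 1)) (b : ℕ) (hx : Prim x i0 b) :
    ((AA n d H x).card : ℝ) ≤ (∏ i, (cst n (d i) : ℝ)) * (∏ i, ((FF n (d i) H).card : ℝ)) /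
      (H : ℝ) ^ s / ((min b H : ℕ) : ℝ) ^ (∑ i, d i) := by
  classical
  unfold AA
  rw [Fintype.card_piFinset, Nat.cast_prod]
  refine (Finset.prod_le_prod (fun i _ => Nat.cast_nonneg _)
    (fun i _ => count_real (d i) H hH x i0 b hx 0)).trans ?_
  rw [Finset.prod_div_distrib, Finset.prod_mul_distrib, Finset.prod_mul_distrib,
    Finset.prod_const, Finset.card_univ, Fintype.card_fin, Finset.prod_pow_eq_pow_sum,
    div_div]

/-- the bad systems -/
noncomputable def badT (n : ℕ) {s : ℕ} (d : Fin s → ℕ) (H T B : ℕ) :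
    Finset (Fin s → MvPolynomial (Fin (n + 1)) ℤ) := by
  classical
  exact (Finset.univ : Finset (Fin (n + 1))).biUnion fun i0 => (Finset.Icc T B).biUnion fun b =>
    ((Bx n i0 b).filter (fun x => Prim x i0 b)).biUnion fun x => AA n d H x

theorem wp_sub {s : ℕ} (d : Fin s → ℕ) (H T B : ℕ) :
    WP n d H T B ⊆ ((badT n d H T B : Finset _) : Set _) := by
  classical
  rintro F ⟨hF, x, hx, hT, hB, h0⟩
  have hx0 : x ≠ 0 := by
    rintro rfl
    obtain ⟨j, hj⟩ := hx 2 Nat.prime_two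
    exact hj (dvd_zero _)
  set M := Finset.univ.sup fun j => (x j).natAbs with hM
  have hxM : ∀ j, |x j| ≤ (M : ℤ) := by
    intro j
    have : (x j).natAbs ≤ M := Finset.le_sup (f := fun j => (x j).natAbs) (Finset.mem_univ j)
    rw [← Int.natCast_natAbs]
    exact_mod_cast this
  obtain ⟨g, y, i0, b, hg, hxy, hy, hb⟩ := exists_prim x hx0 M hxM
  -- `g` is a unit
  have hg1 : g.natAbs = 1 := by
    by_contra hne
    obtain ⟨p, hp, hpg⟩ := Nat.exists_prime_and_dvd hne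
    obtain ⟨j, hj⟩ := hx p hp
    apply hj
    rw [hxy j]
    exact Dvd.dvd.mul_right (Int.natCast_dvd.2 hpg) _
  have hxa : ∀ j, (x j).natAbs = (y j).natAbs := by
    intro j
    rw [hxy j, Int.natAbs_mul, hg1, one_mul]
  have hbM : b = M := by
    refine le_antisymm hb ?_
    rw [hM]
    refine Finset.sup_le fun j _ => ?_
    rw [hxa j]
    have := hy.2.2.2 j
    rw [← Int.natCast_natAbs] at this
    exact_mod_cast this
  unfold badT AA
  simp only [Finset.coe_biUnion, Set.mem_iUnion, Finset.mem_coe,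
    Finset.mem_univ, Finset.mem_Icc, Finset.mem_filter, Fintype.mem_piFinset]
  refine ⟨i0, trivial, b, ⟨hbM ▸ hT, hbM ▸ hB⟩, y, ⟨mem_Bx hy, hy⟩, fun i =>
    ⟨(mem_FF _).2 (hF i), ?_⟩⟩
  have h1 : eval x (F i) = g ^ d i * eval y (F i) := by
    have h2 : x = fun j => g * y j := funext hxy
    rw [h2, MvPolynomial.eval_eq', MvPolynomial.eval_eq', Finset.mul_sum]
    refine Finset.sum_congr rfl fun m hm => ?_
    have h3 : ∑ j, m j = d i := by
      have h4 := (hF i).1 (MvPolynomial.mem_support_iff.1 hm)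
      rw [← h4, Finsupp.weight_apply, Finsupp.sum_fintype _ _ (by simp)]
      simp
    simp only [mul_pow, Finset.prod_mul_distrib, Finset.prod_pow_eq_pow_sum, h3]
    ring
  rw [h0] at h1
  exact (mul_eq_zero.1 h1.symm).resolve_left (pow_ne_zero _ hg)

theorem card_badT {s : ℕ} (d : Fin s → ℕ) (hd : n + 2 ≤ ∑ i, d i) (H T B : ℕ) (hH : 1 ≤ H)
    (hT : 1 ≤ T) :
    ((badT n d H T B).card : ℝ) ≤ ((n + 1) * (4 * 3 ^ n) * ∏ i, (cst n (d i) : ℝ)) *
      (1 / (H : ℝ) ^ s) *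
      (1 / (T : ℝ) ^ (∑ i, d i - (n + 1)) + (B : ℝ) ^ (n + 1) / (H : ℝ) ^ (∑ i, d i)) *
      ∏ i, ((FF n (d i) H).card : ℝ) := by
  classical
  have hHr : (1 : ℝ) ≤ H := by exact_mod_cast hH
  have h1 : ((badT n d H T B).card : ℝ) ≤ ∑ _i0 : Fin (n + 1), ∑ b ∈ Finset.Icc T B,
      (2 * (3 * b) ^ n : ℝ) / ((min b H : ℕ) : ℝ) ^ (∑ i, d i) *
        ((∏ i, (cst n (d i) : ℝ)) * (∏ i, ((FF n (d i) H).card : ℝ)) / (H : ℝ) ^ s) := by
    unfold badT
    refine (Nat.cast_le.2 Finset.card_biUnion_le).trans ?_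
    rw [Nat.cast_sum]
    refine Finset.sum_le_sum fun i0 _ => ?_
    refine (Nat.cast_le.2 Finset.card_biUnion_le).trans ?_
    rw [Nat.cast_sum]
    refine Finset.sum_le_sum fun b hb => ?_
    obtain ⟨hb1, hb2⟩ := Finset.mem_Icc.1 hb
    refine (Nat.cast_le.2 Finset.card_biUnion_le).trans ?_
    rw [Nat.cast_sum]
    have hb0 : 1 ≤ b := hT.trans hb1
    have hμ : (0 : ℝ) < ((min b H : ℕ) : ℝ) := by exact_mod_cast lt_min hb0 hH
    refine (Finset.sum_le_sum fun x hx =>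
      card_AA d H hH x i0 b (Finset.mem_filter.1 hx).2).trans ?_
    rw [Finset.sum_const, nsmul_eq_mul]
    have e5 : ((((Bx n i0 b).filter (fun x => Prim x i0 b)).card : ℕ) : ℝ) ≤ 2 * (3 * b) ^ n := by
      have e6 := (Finset.card_filter_le (Bx n i0 b) (fun x => Prim x i0 b)).trans
        (card_Bx i0 b hb0)
      exact_mod_cast e6
    calc _ ≤ (2 * (3 * b) ^ n : ℝ) * ((∏ i, (cst n (d i) : ℝ)) *
          (∏ i, ((FF n (d i) H).card : ℝ)) / (H : ℝ) ^ s /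
          ((min b H : ℕ) : ℝ) ^ (∑ i, d i)) :=
          mul_le_mul_of_nonneg_right e5 (by positivity)
      _ = _ := by ring
  refine h1.trans ?_
  rw [Finset.sum_const, Finset.card_univ, Fintype.card_fin, nsmul_eq_mul, ← Finset.sum_mul]
  have h2 := sum_tail n (∑ i, d i) H T B hd hH hT
  have h3 : 0 ≤ (∏ i, (cst n (d i) : ℝ)) * (∏ i, ((FF n (d i) H).card : ℝ)) / (H : ℝ) ^ s := by
    positivity
  calc _ ≤ ((n + 1 : ℕ) : ℝ) * ((4 * 3 ^ n * (1 / (T : ℝ) ^ (∑ i, d i - (n + 1)) +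
          (B : ℝ) ^ (n + 1) / (H : ℝ) ^ (∑ i, d i))) *
        ((∏ i, (cst n (d i) : ℝ)) * (∏ i, ((FF n (d i) H).card : ℝ)) / (H : ℝ) ^ s)) :=
        mul_le_mul_of_nonneg_left (mul_le_mul_of_nonneg_right h2 h3) (Nat.cast_nonneg _)
    _ = _ := by
        push_cast
        ring

theorem up_wp {s : ℕ} (d : Fin s → ℕ) (hd : n + 2 ≤ ∑ i, d i) (H T B : ℕ) (hH : 1 ≤ H)
    (hT : 1 ≤ T) :
    ((WP n d H T B).ncard : ℝ) ≤ ((n + 1) * (4 * 3 ^ n) * ∏ i, (cst n (d i) : ℝ)) *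
      ((1 / (H : ℝ) ^ s) *
      (1 / (T : ℝ) ^ (∑ i, d i - (n + 1)) + (B : ℝ) ^ (n + 1) / (H : ℝ) ^ (∑ i, d i))) *
      ((Systems n d H).ncard : ℝ) := by
  have h2 := Set.ncard_le_ncard (wp_sub (n := n) d H T B) (Finset.finite_toSet _)
  rw [Set.ncard_coe_finset] at h2
  have h3 : ((WP n d H T B).ncard : ℝ) ≤ ((badT n d H T B).card : ℝ) := Nat.cast_le.2 h2
  refine h3.trans ((card_badT d hd H T B hH hT).trans (le_of_eq ?_))
  rw [card_systems, Nat.cast_prod]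
  ring

end Pool.Agent.U580.RG
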