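import Mathlib
import Pool.Agent.U580.RG.Tail
import Pool.Agent.R870.RC.Cov

set_option autoImplicit false

/-! # Random complete intersections: lower bounds at one point, upper bounds at two points -/

namespace Pool.Agent.U580.RG

open MvPolynomial Finset Pool.Agent.R870.RC

variable {n : ℕ}

theorem forms_neg {d H : ℕ} {F : MvPolynomial (Fin (n + 1)) ℤ} (hF : F ∈ Forms n d H) :
    -F ∈ Forms n d H := by
  refine ⟨hF.1.neg, fun m => ?_⟩
  rw [coeff_neg, abs_neg]
  exact hF.2 m

theorem Mo_pos (n d : ℕ) : 1 ≤ (Mo n d).card := by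
  rw [card_Mo]
  exact Nat.choose_pos (by omega)

/-- at least the expected number of forms vanish at a point -/
theorem low_pt (d H : ℕ) (hH : 1 ≤ H) (x : Fin (n + 1) → ℤ) (b : ℕ) (hb : 1 ≤ b)
    (hx : ∀ i, |x i| ≤ b) :
    ((FF n d H).card : ℝ) / (3 ^ (Mo n d).card * (3 * (Mo n d).card) * (H * (b : ℝ) ^ d)) ≤
      (((FF n d H).filter (fun F => eval x F = 0)).card : ℝ) := by
  classical
  obtain ⟨M, hM⟩ : ∃ M, M = (Mo n d).card := ⟨_, rfl⟩
  have hM1 : 1 ≤ M := hM ▸ Mo_pos n d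
  have hcF : ∀ K : ℕ, (FF n d K).card = (2 * K + 1) ^ M := fun K => by rw [hM]; exact card_FF n d K
  rw [← hM]
  obtain ⟨h, hh⟩ : ∃ h, h = H / 2 := ⟨_, rfl⟩
  obtain ⟨Y, hY⟩ : ∃ Y : Finset ℤ,
      Y = Finset.Icc (-((M * h * b ^ d : ℕ) : ℤ)) ((M * h * b ^ d : ℕ) : ℤ) := ⟨_, rfl⟩
  have hmap : ∀ F ∈ FF n d h, eval x F ∈ Y := by
    intro F hF
    have h1 := abs_eval_le ((mem_FF F).1 hF) x b hx
    rw [← hM] at h1
    rw [hY, Finset.mem_Icc, ← abs_le]
    push_cast
    push_cast at h1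
    linarith
  have hYne : Y.Nonempty := ⟨0, by rw [hY, Finset.mem_Icc]; omega⟩
  have hYc : (Y.card : ℝ) ≤ 3 * M * (H * (b : ℝ) ^ d) := by
    have h1 : Y.card = 2 * (M * h * b ^ d) + 1 := by
      rw [hY, Int.card_Icc]
      omega
    have h2 : 2 * h ≤ H := by omega
    have h3 : 1 ≤ M * (H * b ^ d) := Nat.one_le_iff_ne_zero.2 (by positivity)
    have h4 : 2 * (M * h * b ^ d) ≤ M * (H * b ^ d) := by
      calc 2 * (M * h * b ^ d) = M * (2 * h * b ^ d) := by ring
        _ ≤ M * (H * b ^ d) := Nat.mul_le_mul_left _ (Nat.mul_le_mul_right _ h2)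
    have h5 : Y.card ≤ 3 * M * (H * b ^ d) := by rw [h1]; nlinarith
    exact_mod_cast h5
  have hYpos : (0 : ℝ) < Y.card := by exact_mod_cast Finset.card_pos.2 hYne
  obtain ⟨t, -, ht⟩ := Finset.exists_le_card_fiber_of_nsmul_le_card_of_maps_to (M := ℝ) hmap hYne
    (b := ((FF n d h).card : ℝ) / Y.card) (by
      rw [nsmul_eq_mul, mul_div_cancel₀ _ hYpos.ne'])
  -- differences
  have h1 : ((FF n d h).filter (fun F => eval x F = t)).card ≤
      ((FF n d H).filter (fun F => eval x F = 0)).card := by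
    rcases ((FF n d h).filter (fun F => eval x F = t)).eq_empty_or_nonempty with he | ⟨F₀, hF₀⟩
    · rw [he, Finset.card_empty]
      exact Nat.zero_le _
    · obtain ⟨hF₀1, hF₀2⟩ := Finset.mem_filter.1 hF₀
      refine Finset.card_le_card_of_injOn (fun F => F + -F₀) ?_ ?_
      · intro F hF
        rw [Finset.mem_coe, Finset.mem_filter, mem_FF] at hF
        rw [Finset.mem_coe, Finset.mem_filter, mem_FF]
        refine ⟨forms_mono (by omega) (forms_add hF.1 (forms_neg ((mem_FF _).1 hF₀1))), ?_⟩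
        rw [map_add, map_neg, hF.2, hF₀2, add_neg_cancel]
      · intro F _ F' _ h
        exact add_right_cancel h
  have h2 : ((FF n d H).card : ℝ) ≤ 3 ^ M * (FF n d h).card := by
    have h4 : 2 * H + 1 ≤ 3 * (2 * h + 1) := by omega
    have h3 : (FF n d H).card ≤ 3 ^ M * (FF n d h).card := by
      rw [hcF, hcF, ← mul_pow]
      exact Nat.pow_le_pow_left h4 M
    exact_mod_cast h3
  have h3 : (((FF n d h).filter (fun F => eval x F = t)).card : ℝ) ≤
      (((FF n d H).filter (fun F => eval x F = 0)).card : ℝ) := by exact_mod_cast h1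
  refine le_trans ?_ (ht.trans h3)
  have hHr : (0 : ℝ) < H := by exact_mod_cast hH
  have hbr : (0 : ℝ) < b := by exact_mod_cast hb
  have hMr : (0 : ℝ) < M := by exact_mod_cast hM1
  obtain ⟨A, hA⟩ : ∃ A : ℝ, A = ((FF n d H).card : ℝ) := ⟨_, rfl⟩
  obtain ⟨A', hA'⟩ : ∃ A' : ℝ, A' = ((FF n d h).card : ℝ) := ⟨_, rfl⟩
  obtain ⟨y, hy⟩ : ∃ y : ℝ, y = (Y.card : ℝ) := ⟨_, rfl⟩
  have hA'0 : 0 ≤ A' := hA' ▸ Nat.cast_nonneg _
  rw [← hA, ← hA'] at h2
  rw [← hy] at hYc hYpos
  rw [← hA, ← hA', ← hy]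
  have hz : (0 : ℝ) < 3 ^ M * (3 * M) * (H * (b : ℝ) ^ d) := by positivity
  rw [div_le_div_iff₀ hz hYpos]
  calc A * y ≤ (3 ^ M * A') * (3 * M * (H * (b : ℝ) ^ d)) :=
        mul_le_mul h2 hYc hYpos.le (mul_nonneg (by positivity) hA'0)
    _ = A' * (3 ^ M * (3 * M) * (H * (b : ℝ) ^ d)) := by ring

/-- few forms vanish at two points -/
theorem up_two (d H : ℕ) (hd : 1 ≤ d) (x y : Fin (n + 1) → ℤ) (i j : Fin (n + 1))
    (hxi : x i ≠ 0) (hyi : y i ≠ 0) (hij : x i * y j ≠ x j * y i) (hH : 1 ≤ H) :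
    (((FF n d H).filter (fun F => eval x F = 0 ∧ eval y F = 0)).card : ℝ) ≤
      3 ^ (Mo n d).card * (FF n d H).card / (H : ℝ) ^ 2 := by
  classical
  obtain ⟨e, rfl⟩ : ∃ e, d = e + 1 := ⟨d - 1, by omega⟩
  set m1 : Fin (n + 1) →₀ ℕ := Finsupp.single i (e + 1) with hm1
  set m2 : Fin (n + 1) →₀ ℕ := Finsupp.single i e + Finsupp.single j 1 with hm2
  have hd1 : m1.degree = e + 1 := by rw [hm1, Finsupp.degree_single]
  have hd2 : m2.degree = e + 1 := by
    rw [hm2, map_add, Finsupp.degree_single, Finsupp.degree_single]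
  have ev1 : ∀ (z : Fin (n + 1) → ℤ) (u : ℤ), eval z (monomial m1 u) = u * z i ^ (e + 1) := by
    intro z u
    rw [eval_monomial, hm1, Finsupp.prod_single_index (h := fun a k => z a ^ k) (pow_zero _)]
  have ev2 : ∀ (z : Fin (n + 1) → ℤ) (u : ℤ), eval z (monomial m2 u) = u * (z i ^ e * z j) := by
    intro z u
    rw [eval_monomial, hm2, Finsupp.prod_add_index' (h := fun a k => z a ^ k)
      (fun _ => pow_zero _) (fun _ _ _ => pow_add _ _ _),
      Finsupp.prod_single_index (h := fun a k => z a ^ k) (pow_zero _),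
      Finsupp.prod_single_index (h := fun a k => z a ^ k) (pow_zero _), pow_one]
  have hcard : ((FF n (e + 1) H).filter (fun F => eval x F = 0 ∧ eval y F = 0)).card *
      ((Finset.Icc (-(H : ℤ)) H) ×ˢ (Finset.Icc (-(H : ℤ)) H)).card ≤
      (FF n (e + 1) (3 * H)).card := by
    rw [← Finset.card_product]
    refine Finset.card_le_card_of_injOn
      (fun p => p.1 + (monomial m1 p.2.1 + monomial m2 p.2.2)) ?_ ?_
    · rintro ⟨F, u, v⟩ hp
      simp only [Finset.coe_product, Set.mem_prod, Finset.mem_coe, Finset.mem_filter, mem_FF,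
        Finset.mem_Icc, ← abs_le] at hp ⊢
      have h1 := forms_add hp.1.1 (forms_add (forms_monomial m1 hd1 u hp.2.1)
        (forms_monomial m2 hd2 v hp.2.2))
      have e1 : H + (H + H) = 3 * H := by ring
      rwa [e1] at h1
    · rintro ⟨F, u, v⟩ hp ⟨F', u', v'⟩ hp' h
      simp only [Finset.coe_product, Set.mem_prod, Finset.mem_coe, Finset.mem_filter] at hp hp'
      have h : F + (monomial m1 u + monomial m2 v) = F' + (monomial m1 u' + monomial m2 v') := h
      have hx := congrArg (eval x) h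
      have hy := congrArg (eval y) h
      simp only [map_add, ev1, ev2, hp.1.2.1, hp.1.2.2, hp'.1.2.1, hp'.1.2.2, zero_add] at hx hy
      -- the linear system
      have h1 : x i ^ e * ((u - u') * x i + (v - v') * x j) = 0 := by
        have : u * x i ^ (e + 1) + v * (x i ^ e * x j) - (u' * x i ^ (e + 1) + v' * (x i ^ e * x j)) = 0 := by
          rw [hx]; ring
        rw [← this]; ring
      have h2 : y i ^ e * ((u - u') * y i + (v - v') * y j) = 0 := by
        have : u * y i ^ (e + 1) + v * (y i ^ e * y j) - (u' * y i ^ (e + 1) + v' * (y i ^ e * y j)) = 0 := by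
          rw [hy]; ring
        rw [← this]; ring
      have h3 := (mul_eq_zero.1 h1).resolve_left (pow_ne_zero _ hxi)
      have h4 := (mul_eq_zero.1 h2).resolve_left (pow_ne_zero _ hyi)
      have h5 : (v - v') * (x i * y j - x j * y i) = 0 := by linear_combination x i * h4 - y i * h3
      have h6 : v - v' = 0 := (mul_eq_zero.1 h5).resolve_right (sub_ne_zero.2 hij)
      rw [h6, zero_mul, add_zero] at h3
      have h7 : u - u' = 0 := (mul_eq_zero.1 h3).resolve_right hxi
      have hv : v = v' := sub_eq_zero.1 h6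
      have hu : u = u' := sub_eq_zero.1 h7
      subst hv hu
      have h8 : F = F' := add_right_cancel h
      rw [h8]
  have h2 : (Finset.Icc (-(H : ℤ)) H).card = 2 * H + 1 := by
    rw [Int.card_Icc]
    omega
  rw [Finset.card_product, h2] at hcard
  have h3 := hcard.trans (card_FF_mul n (e + 1) H 3 (by omega))
  have hHr : (0 : ℝ) < H := by exact_mod_cast hH
  rw [le_div_iff₀ (by positivity)]
  have h4 : ((FF n (e + 1) H).filter (fun F => eval x F = 0 ∧ eval y F = 0)).card * H ^ 2 ≤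
      3 ^ (Mo n (e + 1)).card * (FF n (e + 1) H).card := by
    refine le_trans (Nat.mul_le_mul_left _ ?_) h3
    nlinarith
  exact_mod_cast h4

end Pool.Agent.U580.RG
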