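import Mathlib
import Pool.Agent.U580.RG.Pts
import Pool.Agent.U580.RG.Cop

set_option autoImplicit false

/-! # Random complete intersections: the tail of the height of the points -/

namespace Pool.Agent.U580.RG

open MvPolynomial Finset Pool.Agent.R870.RC

theorem bonf {α β : Type} [DecidableEq α] [DecidableEq β] (P : Finset α) (A : α → Finset β) :
    ∑ x ∈ P, (A x).card ≤ (P.biUnion A).card + ∑ x ∈ P, ∑ y ∈ P.erase x, (A x ∩ A y).card := by
  set U := P.biUnion A with hU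
  have h1 : ∀ x ∈ P, (A x).card = ∑ F ∈ U, if F ∈ A x then 1 else 0 := by
    intro x hx
    rw [Finset.sum_boole, Finset.filter_mem_eq_inter, Finset.inter_eq_right.2
      (Finset.subset_biUnion_of_mem A hx)]
    rfl
  have h2 : ∀ x ∈ P, ∀ y ∈ P.erase x, (A x ∩ A y).card =
      ∑ F ∈ U, (if F ∈ A x then 1 else 0) * (if F ∈ A y then 1 else 0) := by
    intro x hx y _
    have : ∀ F, ((if F ∈ A x then 1 else 0) * (if F ∈ A y then 1 else 0) : ℕ) =
        if F ∈ A x ∩ A y then 1 else 0 := by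
      intro F
      by_cases h3 : F ∈ A x <;> by_cases h4 : F ∈ A y <;> simp [h3, h4]
    simp only [this]
    rw [Finset.sum_boole, Finset.filter_mem_eq_inter, Finset.inter_eq_right.2
      (Finset.inter_subset_left.trans (Finset.subset_biUnion_of_mem A hx))]
    rfl
  rw [Finset.sum_congr rfl h1, Finset.sum_comm,
    Finset.sum_congr rfl (fun x hx => Finset.sum_congr rfl (h2 x hx)), Finset.card_eq_sum_ones]
  have h3 : ∑ x ∈ P, ∑ y ∈ P.erase x, ∑ F ∈ U,
      ((if F ∈ A x then 1 else 0) * (if F ∈ A y then 1 else 0) : ℕ) =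
      ∑ F ∈ U, ∑ x ∈ P, ∑ y ∈ P.erase x,
        ((if F ∈ A x then 1 else 0) * (if F ∈ A y then 1 else 0) : ℕ) := by
    rw [Finset.sum_congr rfl (fun x _ => Finset.sum_comm), Finset.sum_comm]
  rw [h3, ← Finset.sum_add_distrib]
  refine Finset.sum_le_sum fun F _ => ?_
  -- the multiplicity
  set a : α → ℕ := fun x => if F ∈ A x then 1 else 0 with ha
  have ha2 : ∀ x, a x * a x = a x := by
    intro x
    simp only [ha]
    split_ifs <;> rfl
  have h4 : ∀ x ∈ P, ∑ y ∈ P.erase x, a x * a y + a x = a x * ∑ y ∈ P, a y := by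
    intro x hx
    rw [← Finset.mul_sum, ← Finset.add_sum_erase P a hx, mul_add, ha2]
    ring
  have h5 : ∑ x ∈ P, ∑ y ∈ P.erase x, a x * a y + ∑ x ∈ P, a x = (∑ x ∈ P, a x) * ∑ y ∈ P, a y := by
    rw [← Finset.sum_add_distrib, Finset.sum_congr rfl h4, Finset.sum_mul]
  show ∑ x ∈ P, a x ≤ 1 + ∑ x ∈ P, ∑ y ∈ P.erase x, a x * a y
  set M := ∑ x ∈ P, a x with hM
  set W := ∑ x ∈ P, ∑ y ∈ P.erase x, a x * a y with hW
  rcases Nat.lt_or_ge M 2 with h | h
  · omega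
  · nlinarith

variable {n : ℕ}

theorem low_AA {s : ℕ} (d : Fin s → ℕ) (H : ℕ) (hH : 1 ≤ H) (x : Fin (n + 1) → ℤ) (b : ℕ)
    (hb : 1 ≤ b) (hx : ∀ i, |x i| ≤ b) :
    (∏ i, ((FF n (d i) H).card : ℝ)) / ((∏ i, (3 ^ (Mo n (d i)).card * (3 * (Mo n (d i)).card) : ℝ)) *
      ((H : ℝ) ^ s * (b : ℝ) ^ (∑ i, d i))) ≤ ((AA n d H x).card : ℝ) := by
  classical
  unfold AA
  rw [Fintype.card_piFinset, Nat.cast_prod]
  refine le_trans (le_of_eq ?_) (Finset.prod_le_prod (fun i _ => by positivity)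
    (fun i _ => low_pt (d i) H hH x b hb hx))
  rw [Finset.prod_div_distrib, Finset.prod_mul_distrib (f := fun i =>
    (3 ^ (Mo n (d i)).card * (3 * (Mo n (d i)).card) : ℝ)), Finset.prod_mul_distrib (f := fun _ => (H : ℝ)),
    Finset.prod_const, Finset.card_univ, Fintype.card_fin, Finset.prod_pow_eq_pow_sum]

theorem up_AA {s : ℕ} (d : Fin s → ℕ) (hd : ∀ i, 1 ≤ d i) (H : ℕ) (hH : 1 ≤ H)
    (x y : Fin (n + 1) → ℤ) (i j : Fin (n + 1))
    (hxi : x i ≠ 0) (hyi : y i ≠ 0) (hij : x i * y j ≠ x j * y i) [DecidableEq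
      (Fin s → MvPolynomial (Fin (n + 1)) ℤ)] :
    ((AA n d H x ∩ AA n d H y).card : ℝ) ≤
      (∏ i, (3 ^ (Mo n (d i)).card : ℝ)) * (∏ i, ((FF n (d i) H).card : ℝ)) / ((H : ℝ) ^ s) ^ 2 := by
  classical
  have h1 : AA n d H x ∩ AA n d H y ⊆ Fintype.piFinset fun i =>
      (FF n (d i) H).filter (fun F => eval x F = 0 ∧ eval y F = 0) := by
    intro F hF
    rw [Finset.mem_inter] at hF
    obtain ⟨h1, h2⟩ := hF
    unfold AA at h1 h2
    rw [Fintype.mem_piFinset] at h1 h2 ⊢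
    intro l
    have e1 := Finset.mem_filter.1 (h1 l)
    have e2 := Finset.mem_filter.1 (h2 l)
    exact Finset.mem_filter.2 ⟨e1.1, e1.2, e2.2⟩
  refine (Nat.cast_le.2 (Finset.card_le_card h1)).trans ?_
  rw [Fintype.card_piFinset, Nat.cast_prod]
  refine (Finset.prod_le_prod (fun i _ => Nat.cast_nonneg _)
    (fun l _ => up_two (d l) H (hd l) x y i j hxi hyi hij hH)).trans (le_of_eq ?_)
  rw [Finset.prod_div_distrib, Finset.prod_mul_distrib, Finset.prod_const, Finset.card_univ,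
    Fintype.card_fin, ← pow_mul, ← pow_mul, mul_comm 2 s]

theorem union_sub (m : ℕ) {s : ℕ} (d : Fin s → ℕ) (H T : ℕ) [DecidableEq
      (Fin s → MvPolynomial (Fin (m + 1 + 1)) ℤ)] :
    (((Fam m T).biUnion fun x => AA (m + 1) d H x : Finset _) : Set _) ⊆ WP (m + 1) d H T (2 * T) := by
  classical
  intro F hF
  rw [Finset.mem_coe, Finset.mem_biUnion] at hF
  obtain ⟨x, hx, hF⟩ := hF
  unfold AA at hF
  rw [Fintype.mem_piFinset] at hF
  obtain ⟨h1, h2, h3⟩ := mem_Fam hx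
  refine ⟨fun i => (mem_FF _).1 (Finset.mem_filter.1 (hF i)).1, x, ?_, ?_, ?_, fun i =>
    (Finset.mem_filter.1 (hF i)).2⟩
  · intro p hp
    by_contra hno
    push Not at hno
    have h4 := h2.isUnit_of_dvd' (hno 0) (hno 1)
    exact (Nat.prime_iff_prime_int.1 hp).not_isUnit h4
  · rcases lt_max_iff.1 h3 with h | h
    · refine le_trans (b := (x 0).natAbs) (by omega) ?_
      exact Finset.le_sup (f := fun j => (x j).natAbs) (Finset.mem_univ 0)
    · refine le_trans (b := (x 1).natAbs) (by omega) ?_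
      exact Finset.le_sup (f := fun j => (x j).natAbs) (Finset.mem_univ 1)
  · refine Finset.sup_le fun j _ => ?_
    have := h1 j
    omega

theorem fin_wp {s : ℕ} (d : Fin s → ℕ) (H T B : ℕ) : (WP n d H T B).Finite :=
  (fin_systems d H).subset fun _ hF => hF.1

/-- the lower bound for the tail -/
theorem low_wp (m : ℕ) {s : ℕ} (d : Fin s → ℕ) (hd : ∀ i, 1 ≤ d i) :
    ∃ c C : ℝ, 0 < c ∧ 0 < C ∧ ∀ H : ℕ, 1 ≤ H → ∀ T : ℕ, 1 ≤ T →
      C * (T : ℝ) ^ (m + 2 + ∑ i, d i) ≤ (H : ℝ) ^ s →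
      c * ((T : ℝ) ^ (m + 2) / (T : ℝ) ^ (∑ i, d i) / (H : ℝ) ^ s) *
        ((Systems (m + 1) d H).ncard : ℝ) ≤ ((WP (m + 1) d H T (2 * T)).ncard : ℝ) := by
  classical
  set D := ∑ i, d i with hD
  obtain ⟨c₁, hc₁⟩ : ∃ c₁ : ℝ, c₁ = ∏ i, (3 ^ (Mo (m + 1) (d i)).card *
    (3 * (Mo (m + 1) (d i)).card) : ℝ) := ⟨_, rfl⟩
  obtain ⟨c₂, hc₂⟩ : ∃ c₂ : ℝ, c₂ = ∏ i, (3 ^ (Mo (m + 1) (d i)).card : ℝ) := ⟨_, rfl⟩
  have hc₁0 : 0 < c₁ := by
    rw [hc₁]
    refine Finset.prod_pos fun i _ => ?_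
    have : (0 : ℝ) < (Mo (m + 1) (d i)).card := by exact_mod_cast Mo_pos (m + 1) (d i)
    positivity
  have hc₂0 : 0 < c₂ := by
    rw [hc₂]
    positivity
  refine ⟨1 / (2 * c₁ * 2 ^ D), 2 * c₁ * c₂ * 2 ^ (m + 2 + D), by positivity, by positivity,
    fun H hH T hT hcond => ?_⟩
  have hHr : (0 : ℝ) < H := by exact_mod_cast hH
  have hTr : (0 : ℝ) < T := by exact_mod_cast hT
  obtain ⟨S, hS⟩ : ∃ S : ℝ, S = ∏ i, ((FF (m + 1) (d i) H).card : ℝ) := ⟨_, rfl⟩
  have hS0 : 0 < S := by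
    rw [hS]
    refine Finset.prod_pos fun i _ => ?_
    rw [card_FF]
    positivity
  have hSys : ((Systems (m + 1) d H).ncard : ℝ) = S := by rw [card_systems, hS, Nat.cast_prod]
  obtain ⟨Q, hQ⟩ : ∃ Q : ℝ, Q = (H : ℝ) ^ s := ⟨_, rfl⟩
  have hQ0 : 0 < Q := by rw [hQ]; positivity
  rw [← hQ] at hcond
  rw [hSys, ← hQ]
  -- the two bounds
  set a : ℝ := S / (c₁ * (Q * (2 * T : ℝ) ^ D)) with ha
  set β : ℝ := c₂ * S / Q ^ 2 with hβ
  have ha0 : 0 < a := by rw [ha]; positivity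
  have hβ0 : 0 < β := by rw [hβ]; positivity
  have hlow : ∀ x ∈ Fam m T, a ≤ ((AA (m + 1) d H x).card : ℝ) := by
    intro x hx
    obtain ⟨h1, -, -⟩ := mem_Fam hx
    have h2 := low_AA (n := m + 1) d H hH x (2 * T) (by omega) (fun i => by
      rw [abs_of_nonneg (by have := (h1 i).1; omega)]
      push_cast
      exact (h1 i).2)
    rw [← hS, ← hc₁, ← hQ, ← hD] at h2
    push_cast at h2
    exact h2
  have hup : ∀ x ∈ Fam m T, ∀ y ∈ (Fam m T).erase x,
      ((AA (m + 1) d H x ∩ AA (m + 1) d H y).card : ℝ) ≤ β := by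
    intro x hx y hy
    obtain ⟨hne, hy⟩ := Finset.mem_erase.1 hy
    obtain ⟨h1, -, -⟩ := mem_Fam hx
    obtain ⟨h2, -, -⟩ := mem_Fam hy
    obtain ⟨j, hj⟩ := Fam_indep hx hy hne.symm
    have h3 := up_AA (n := m + 1) d hd H hH x y 0 j (by have := (h1 0).1; omega)
      (by have := (h2 0).1; omega) hj
    rw [← hS, ← hc₂, ← hQ] at h3
    exact h3
  -- Bonferroni
  set N : ℝ := ((Fam m T).card : ℝ) with hN
  obtain ⟨hN1, hN2⟩ := card_Fam m T
  have hN1r : (T : ℝ) ^ (m + 2) ≤ N := by rw [hN]; exact_mod_cast hN1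
  have hN2r : N ≤ (2 * T : ℝ) ^ (m + 2) := by rw [hN]; exact_mod_cast hN2
  have hN0 : 0 < N := lt_of_lt_of_le (by positivity) hN1r
  have hb := bonf (Fam m T) (fun x => AA (m + 1) d H x)
  have hbr : ∑ x ∈ Fam m T, ((AA (m + 1) d H x).card : ℝ) ≤
      (((Fam m T).biUnion fun x => AA (m + 1) d H x).card : ℝ) +
      ∑ x ∈ Fam m T, ∑ y ∈ (Fam m T).erase x,
        ((AA (m + 1) d H x ∩ AA (m + 1) d H y).card : ℝ) := by exact_mod_cast hb
  have h1 : N * a ≤ ∑ x ∈ Fam m T, ((AA (m + 1) d H x).card : ℝ) := by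
    have := Finset.sum_le_sum hlow
    rwa [Finset.sum_const, nsmul_eq_mul] at this
  have h2 : ∑ x ∈ Fam m T, ∑ y ∈ (Fam m T).erase x,
        ((AA (m + 1) d H x ∩ AA (m + 1) d H y).card : ℝ) ≤ N * (N * β) := by
    have h3 : ∀ x ∈ Fam m T, ∑ y ∈ (Fam m T).erase x,
        ((AA (m + 1) d H x ∩ AA (m + 1) d H y).card : ℝ) ≤ N * β := by
      intro x hx
      refine (Finset.sum_le_sum (hup x hx)).trans ?_
      rw [Finset.sum_const, nsmul_eq_mul]
      refine mul_le_mul_of_nonneg_right ?_ hβ0.le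
      rw [hN]
      exact_mod_cast Finset.card_le_card (Finset.erase_subset _ _)
    have := Finset.sum_le_sum h3
    rwa [Finset.sum_const, nsmul_eq_mul] at this
  have h3 : (((Fam m T).biUnion fun x => AA (m + 1) d H x).card : ℝ) ≤
      ((WP (m + 1) d H T (2 * T)).ncard : ℝ) := by
    have := Set.ncard_le_ncard (union_sub m d H T) (fin_wp d H T (2 * T))
    rw [Set.ncard_coe_finset] at this
    exact_mod_cast this
  have h4 : N * β ≤ a / 2 := by
    have h5 : (2 * (T : ℝ)) ^ (m + 2) * β ≤ a / 2 := by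
      rw [ha, hβ, div_div, mul_div_assoc', div_le_div_iff₀ (by positivity) (by positivity)]
      have e1 : (2 * (T : ℝ)) ^ (m + 2) * (c₂ * S) * (c₁ * (Q * (2 * T) ^ D) * 2) =
          S * Q * (2 * c₁ * c₂ * 2 ^ (m + 2 + D) * (T : ℝ) ^ (m + 2 + D)) := by
        rw [mul_pow, mul_pow, pow_add, pow_add (T : ℝ)]
        ring
      rw [e1]
      calc S * Q * (2 * c₁ * c₂ * 2 ^ (m + 2 + D) * (T : ℝ) ^ (m + 2 + D)) ≤ S * Q * Q :=
            mul_le_mul_of_nonneg_left hcond (by positivity)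
        _ = S * Q ^ 2 := by ring
    exact (mul_le_mul_of_nonneg_right hN2r hβ0.le).trans h5
  have h6 : N * (a / 2) ≤ ((WP (m + 1) d H T (2 * T)).ncard : ℝ) := by
    have : N * (N * β) ≤ N * (a / 2) := mul_le_mul_of_nonneg_left h4 hN0.le
    have e : N * a = N * (a / 2) + N * (a / 2) := by ring
    linarith
  refine le_trans ?_ ((mul_le_mul_of_nonneg_right hN1r (by positivity)).trans h6)
  refine le_of_eq ?_
  rw [ha, mul_pow]
  field_simp

end Pool.Agent.U580.RG
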