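import Mathlib
import Pool.Agent.U580.RG.Fin

set_option autoImplicit false

/-! # Random complete intersections: the final form -/

namespace Pool.Agent.U580.RG

open MvPolynomial Finset Pool.Agent.R870.RC

variable {n : ℕ}

theorem zz_sub' {s : ℕ} (d : Fin s → ℕ) (H B : ℕ) (hB : 1 ≤ B) :
    ((zz n d H : Finset _) : Set (Fin s → MvPolynomial (Fin (n + 1)) ℤ)) ⊆ WP n d H 1 B := by
  intro F hF
  unfold zz at hF
  rw [Finset.mem_coe, Fintype.mem_piFinset] at hF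
  refine ⟨fun i => (mem_FF _).1 (Finset.mem_filter.1 (hF i)).1, e0 n, ?_, ?_, ?_, fun i =>
    (Finset.mem_filter.1 (hF i)).2⟩
  · intro p hp
    refine ⟨0, fun h => ?_⟩
    rw [e0_zero] at h
    exact (Nat.prime_iff_prime_int.1 hp).not_isUnit (isUnit_of_dvd_one h)
  · refine le_trans (b := (e0 n 0).natAbs) (by rw [e0_zero]; rfl) ?_
    exact Finset.le_sup (f := fun j => (e0 n j).natAbs) (Finset.mem_univ 0)
  · refine Finset.sup_le fun j _ => ?_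
    by_cases hj : j = 0
    · rw [hj, e0_zero]
      exact hB
    · rw [e0_ne n hj]
      exact Nat.zero_le _

theorem low_all {s : ℕ} (d : Fin s → ℕ) (H B : ℕ) (hH : 1 ≤ H) (hB : 1 ≤ B) :
    (1 / 3) ^ s / (H : ℝ) ^ s * ((Systems n d H).ncard : ℝ) ≤ ((WP n d H 1 B).ncard : ℝ) := by
  classical
  have h2 := Set.ncard_le_ncard (zz_sub' (n := n) d H B hB) (fin_wp d H 1 B)
  rw [Set.ncard_coe_finset] at h2
  have h3 : ((zz n d H).card : ℝ) ≤ ((WP n d H 1 B).ncard : ℝ) := Nat.cast_le.2 h2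
  refine le_trans ?_ h3
  have h5 : (zz n d H).card = ∏ i, ((FF n (d i) H).filter (fun F => eval (e0 n) F = 0)).card := by
    unfold zz
    rw [Fintype.card_piFinset]
  rw [h5, card_systems, Nat.cast_prod, Nat.cast_prod]
  have h4 : (1 / 3 : ℝ) ^ s / (H : ℝ) ^ s * ∏ i, ((FF n (d i) H).card : ℝ) =
      ∏ i, (((FF n (d i) H).card : ℝ) / (3 * H)) := by
    rw [Finset.prod_div_distrib, Finset.prod_const, Finset.card_univ, Fintype.card_fin, mul_pow,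
      one_div, inv_pow]
    ring
  rw [h4]
  exact Finset.prod_le_prod (fun i _ => div_nonneg (Nat.cast_nonneg _)
    (mul_nonneg (by norm_num) (Nat.cast_nonneg _))) (fun i _ => low_one (d i) H hH)

theorem wp_mono {s : ℕ} (d : Fin s → ℕ) (H T B B' : ℕ) (h : B ≤ B') : WP n d H T B ⊆ WP n d H T B' := by
  rintro F ⟨hF, x, h1, h2, h3, h4⟩
  exact ⟨hF, x, h1, h2, h3.trans h, h4⟩

theorem main_tail (n s : ℕ) (hn : 1 ≤ n) (d : Fin s → ℕ) (hd1 : ∀ i, 1 ≤ d i)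
    (hd : n + 2 ≤ ∑ i, d i) :
    ∃ c C : ℝ, 0 < c ∧ 0 < C ∧ ∀ H : ℕ, 1 ≤ H →
      (Systems n d H).Finite ∧ (Systems n d H).Nonempty ∧
      (∀ B : ℕ, 1 ≤ B →
        c / (H : ℝ) ^ s ≤ ((WP n d H 1 B).ncard : ℝ) / ((Systems n d H).ncard : ℝ)) ∧
      (∀ T B : ℕ, 1 ≤ T → ((WP n d H T B).ncard : ℝ) / ((Systems n d H).ncard : ℝ) ≤
        C / (H : ℝ) ^ s * (1 / (T : ℝ) ^ (∑ i, d i - (n + 1)) +
          (B : ℝ) ^ (n + 1) / (H : ℝ) ^ (∑ i, d i))) ∧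
      (∀ T B : ℕ, 1 ≤ T → 2 * T ≤ B → C * (T : ℝ) ^ (n + 1 + ∑ i, d i) ≤ (H : ℝ) ^ s →
        c / (H : ℝ) ^ s * (1 / (T : ℝ) ^ (∑ i, d i - (n + 1))) ≤
          ((WP n d H T B).ncard : ℝ) / ((Systems n d H).ncard : ℝ)) := by
  obtain ⟨m, rfl⟩ : ∃ m, n = m + 1 := ⟨n - 1, by omega⟩
  obtain ⟨c₁, C₁, hc₁, hC₁, h1⟩ := low_wp m d hd1
  set C₂ : ℝ := (((m + 1 : ℕ) + 1) * (4 * 3 ^ (m + 1)) * ∏ i, (cst (m + 1) (d i) : ℝ)) with hC₂
  refine ⟨min c₁ ((1 / 3) ^ s), max C₁ C₂, lt_min hc₁ (by positivity), lt_max_of_lt_left hC₁,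
    fun H hH => ?_⟩
  have hHr : (0 : ℝ) < H := by exact_mod_cast hH
  have hcard : 0 < (Systems (m + 1) d H).ncard := by
    rw [card_systems]
    refine Finset.prod_pos fun i _ => ?_
    rw [card_FF]
    positivity
  have hS : (0 : ℝ) < ((Systems (m + 1) d H).ncard : ℝ) := by exact_mod_cast hcard
  refine ⟨fin_systems d H, Set.nonempty_of_ncard_ne_zero hcard.ne', fun B hB => ?_,
    fun T B hT => ?_, fun T B hT hTB hcond => ?_⟩
  · rw [le_div_iff₀ hS]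
    refine le_trans (mul_le_mul_of_nonneg_right ?_ hS.le) (low_all d H B hH hB)
    exact div_le_div_of_nonneg_right (min_le_right _ _) (by positivity)
  · rw [div_le_iff₀ hS]
    have h2 := up_wp (n := m + 1) d hd H T B hH hT
    refine h2.trans ?_
    have h3 : (0 : ℝ) ≤ (1 / (H : ℝ) ^ s) *
      (1 / (T : ℝ) ^ (∑ i, d i - (m + 1 + 1)) + (B : ℝ) ^ (m + 1 + 1) / (H : ℝ) ^ (∑ i, d i)) := by
      positivity
    calc _ ≤ max C₁ C₂ * ((1 / (H : ℝ) ^ s) * (1 / (T : ℝ) ^ (∑ i, d i - (m + 1 + 1)) +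
            (B : ℝ) ^ (m + 1 + 1) / (H : ℝ) ^ (∑ i, d i))) * ((Systems (m + 1) d H).ncard : ℝ) :=
          mul_le_mul_of_nonneg_right (mul_le_mul_of_nonneg_right (le_max_right _ _) h3) hS.le
      _ = _ := by ring
  · rw [le_div_iff₀ hS]
    have hcond' : C₁ * (T : ℝ) ^ (m + 2 + ∑ i, d i) ≤ (H : ℝ) ^ s := by
      refine le_trans (mul_le_mul_of_nonneg_right (le_max_left C₁ C₂) (by positivity)) ?_
      exact hcond
    have h2 := h1 H hH T hT hcond'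
    have h3 : ((WP (m + 1) d H T (2 * T)).ncard : ℝ) ≤ ((WP (m + 1) d H T B).ncard : ℝ) := by
      exact_mod_cast Set.ncard_le_ncard (wp_mono d H T _ _ hTB) (fin_wp d H T B)
    refine le_trans ?_ (h2.trans h3)
    refine mul_le_mul_of_nonneg_right ?_ hS.le
    have hT0 : (0 : ℝ) < T := by exact_mod_cast hT
    obtain ⟨k, hk⟩ := Nat.exists_eq_add_of_le (show m + 2 ≤ ∑ i, d i by omega)
    have e1 : ∑ i, d i - (m + 1 + 1) = k := by omega
    rw [e1, hk]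
    have e2 : (T : ℝ) ^ (m + 2) / (T : ℝ) ^ (m + 2 + k) / (H : ℝ) ^ s =
        1 / (H : ℝ) ^ s * (1 / (T : ℝ) ^ k) := by
      have e3 : (T : ℝ) ^ (m + 2 + k) = (T : ℝ) ^ (m + 2) * (T : ℝ) ^ k := pow_add _ _ _
      rw [e3, div_mul_eq_div_div, div_self (by positivity)]
      ring
    rw [e2]
    calc min c₁ ((1 / 3) ^ s) / (H : ℝ) ^ s * (1 / (T : ℝ) ^ k) =
        min c₁ ((1 / 3) ^ s) * (1 / (H : ℝ) ^ s * (1 / (T : ℝ) ^ k)) := by ring
      _ ≤ c₁ * (1 / (H : ℝ) ^ s * (1 / (T : ℝ) ^ k)) :=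
          mul_le_mul_of_nonneg_right (min_le_left _ _) (by positivity)

end Pool.Agent.U580.RG
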